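import Mathlib

-- part Pool.Agent.P.MP_8e22c2_al.Wave
section

set_option autoImplicit false

namespace Pool.Agent.P.MP_8e22c2_al

open Filter Cardinal

section General
variable {F : Type*} [Group F]

/-- pointwise limits of automorphisms -/
theorem exists_limit (u : ℕ → MulAut F)
    (h1 : ∀ w, ∃ v, ∀ᶠ n in atTop, u n w = v)
    (h2 : ∀ w, ∃ v, ∀ᶠ n in atTop, (u n)⁻¹ w = v) :
    ∃ a : MulAut F, ∀ w, ∀ᶠ n in atTop, u n w = a w := by
  choose f hf using h1
  choose g hg using h2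
  refine ⟨⟨⟨f, g, ?_, ?_⟩, ?_⟩, hf⟩
  · intro w
    obtain ⟨n, hn1, hn2⟩ := ((hf w).and (hg (f w))).exists
    rw [← hn2, ← hn1]; simp
  · intro w
    obtain ⟨n, hn1, hn2⟩ := ((hg w).and (hf (g w))).exists
    rw [← hn2, ← hn1]; simp
  · intro x y
    obtain ⟨n, h1, h2, h3⟩ := ((hf x).and ((hf y).and (hf (x * y)))).exists
    simp only [← h1, ← h2, ← h3, map_mul]

theorem wave_stab (s g : MulAut F) (H : Set F)
    (hs : ∀ h ∈ H, s⁻¹ h ∈ H) (hg : ∀ h ∈ H, g⁻¹ h = s⁻¹ h)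
    (w : F) (N : ℕ) (hN : (s⁻¹ ^ N) w ∈ H) :
    ∀ᶠ n in atTop, (g ^ n * s⁻¹ ^ n) w = (g ^ N * s⁻¹ ^ N) w := by
  rw [eventually_atTop]
  refine ⟨N, fun n hn => ?_⟩
  have key : (s⁻¹ ^ n) w ∈ H ∧ (g ^ n * s⁻¹ ^ n) w = (g ^ N * s⁻¹ ^ N) w := by
    induction n, hn using Nat.le_induction with
    | base => exact ⟨hN, rfl⟩
    | succ n hn ih =>
      obtain ⟨ih1, ih2⟩ := ih
      have e1 : (s⁻¹ ^ (n + 1)) w = s⁻¹ ((s⁻¹ ^ n) w) := by
        rw [pow_succ', MulAut.mul_apply]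
      refine ⟨e1 ▸ hs _ ih1, ?_⟩
      rw [← ih2, MulAut.mul_apply, MulAut.mul_apply, e1, ← hg _ ih1, pow_succ, MulAut.mul_apply]
      simp
  exact key.2

/-- wave operator lemma -/
theorem wave (s g : MulAut F) (H : Set F)
    (hs : ∀ h ∈ H, s⁻¹ h ∈ H) (hg : ∀ h ∈ H, g⁻¹ h = s⁻¹ h)
    (hs' : ∀ w, ∃ n : ℕ, (s⁻¹ ^ n) w ∈ H) (hg' : ∀ w, ∃ n : ℕ, (g⁻¹ ^ n) w ∈ H) :
    IsConj s g := by
  obtain ⟨a, ha⟩ := exists_limit (fun n => g ^ n * s⁻¹ ^ n)
    (fun w => by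
      obtain ⟨N, hN⟩ := hs' w
      exact ⟨_, wave_stab s g H hs hg w N hN⟩)
    (fun w => by
      obtain ⟨N, hN⟩ := hg' w
      refine ⟨(s ^ N * g⁻¹ ^ N) w, (wave_stab g s H (fun h hh => (hg h hh) ▸ hs h hh)
        (fun h hh => (hg h hh).symm) w N hN).mono fun n hn => ?_⟩
      rw [← hn]
      congr 1
      simp [mul_inv_rev])
  rw [isConj_iff]
  refine ⟨a, ?_⟩
  rw [mul_inv_eq_iff_eq_mul]
  ext w
  have h1 := (tendsto_add_atTop_nat 1).eventually (ha (s w))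
  obtain ⟨n, hn1, hn2⟩ := (h1.and (ha w)).exists
  rw [MulAut.mul_apply, MulAut.mul_apply, ← hn1, ← hn2]
  simp only [MulAut.mul_apply]
  rw [pow_succ' g, pow_succ s⁻¹, MulAut.mul_apply, MulAut.mul_apply]
  simp

theorem descend (ψ : MulAut F) (K : ℕ → Set F) (h : ∀ n, ∀ w ∈ K (n + 1), ψ w ∈ K n)
    (n : ℕ) (w : F) (hw : w ∈ K n) : (ψ ^ n) w ∈ K 0 := by
  induction n generalizing w with
  | zero => simpa using hw
  | succ n ih =>
    rw [pow_succ, MulAut.mul_apply]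
    exact ih _ (h n w hw)

end General

section Free
variable {α : Type*}

/-- the free factor spanned by a set of basis elements -/
def Sp (A : Set α) : Subgroup (FreeGroup α) := Subgroup.closure (FreeGroup.of '' A)

theorem of_mem_Sp {A : Set α} {x : α} (hx : x ∈ A) : FreeGroup.of x ∈ Sp A :=
  Subgroup.subset_closure ⟨x, hx, rfl⟩

theorem Sp_mono {A B : Set α} (h : A ⊆ B) : Sp A ≤ Sp B :=
  Subgroup.closure_mono (Set.image_mono h)

theorem map_Sp {G : Type*} [Group G] {φ : Type*} [FunLike φ (FreeGroup α) G]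
    [MonoidHomClass φ (FreeGroup α) G] (f : φ) {A : Set α} (L : Subgroup G)
    (h : ∀ x ∈ A, f (FreeGroup.of x) ∈ L) : ∀ w ∈ Sp A, f w ∈ L := by
  intro w hw
  induction hw using Subgroup.closure_induction with
  | mem x hx =>
    obtain ⟨y, hy, rfl⟩ := hx
    exact h y hy
  | one => simp
  | mul x y _ _ hx hy => rw [map_mul]; exact L.mul_mem hx hy
  | inv x _ hx => rw [map_inv]; exact L.inv_mem hx

theorem eq_on_Sp {G : Type*} [Group G] {φ : Type*} [FunLike φ (FreeGroup α) G]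
    [MonoidHomClass φ (FreeGroup α) G] {φ' : Type*} [FunLike φ' (FreeGroup α) G]
    [MonoidHomClass φ' (FreeGroup α) G] (f : φ) (g : φ') {A : Set α}
    (h : ∀ x ∈ A, f (FreeGroup.of x) = g (FreeGroup.of x)) : ∀ w ∈ Sp A, f w = g w := by
  intro w hw
  induction hw using Subgroup.closure_induction with
  | mem x hx =>
    obtain ⟨y, hy, rfl⟩ := hx
    exact h y hy
  | one => simp
  | mul x y _ _ hx hy => rw [map_mul, map_mul, hx, hy]
  | inv x _ hx => rw [map_inv, map_inv, hx]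

theorem exists_support (w : FreeGroup α) : ∃ s : Set α, s.Finite ∧ w ∈ Sp s := by
  induction w using FreeGroup.induction_on with
  | C1 => exact ⟨∅, Set.finite_empty, Subgroup.one_mem _⟩
  | of x => exact ⟨{x}, Set.finite_singleton x, of_mem_Sp rfl⟩
  | inv_of x h =>
    obtain ⟨s, hs, h⟩ := h
    exact ⟨s, hs, Subgroup.inv_mem _ h⟩
  | mul x y hx hy =>
    obtain ⟨s, hs, hx⟩ := hx
    obtain ⟨t, ht, hy⟩ := hy
    exact ⟨s ∪ t, hs.union ht, Subgroup.mul_mem _ (Sp_mono Set.subset_union_left hx)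
      (Sp_mono Set.subset_union_right hy)⟩

theorem exists_level (f : α → ℤ) (w : FreeGroup α) :
    ∃ n : ℕ, w ∈ Sp {x | f x ≤ n} := by
  obtain ⟨s, hs, hw⟩ := exists_support w
  obtain ⟨b, hb⟩ := (hs.image f).bddAbove
  refine ⟨b.toNat, Sp_mono (fun x hx => ?_) hw⟩
  have := hb ⟨x, hx, rfl⟩
  show f x ≤ _
  omega

/-- permutation automorphisms -/
def PA : Equiv.Perm α →* MulAut (FreeGroup α) where
  toFun e := FreeGroup.freeGroupCongr e
  map_one' := FreeGroup.freeGroupCongr_refl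
  map_mul' e f := (FreeGroup.freeGroupCongr_trans f e).symm

@[simp] theorem PA_of (e : Equiv.Perm α) (x : α) :
    PA e (FreeGroup.of x) = FreeGroup.of (e x) := FreeGroup.map.of

end Free

end Pool.Agent.P.MP_8e22c2_al
end

-- part Pool.Agent.P.MP_8e22c2_al.Shift
section

set_option autoImplicit false

namespace Pool.Agent.P.MP_8e22c2_al

open Filter Cardinal

variable {α : Type}

theorem mk_int_prod [Infinite α] : #(ℤ × α) = #α := by
  simp

theorem mk_fiber_fst {β γ : Type} (n : β) : #{b : β × γ // b.1 = n} = #γ := by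
  refine Cardinal.mk_congr ⟨fun b => b.1.2, fun a => ⟨(n, a), rfl⟩, ?_, ?_⟩
  · rintro ⟨⟨a, b⟩, rfl⟩; rfl
  · intro a; rfl

theorem exists_equiv_level (f : α → ℤ) (hf : ∀ n, #{x // f x = n} = #α) :
    ∃ c : α ≃ ℤ × α, ∀ x, (c x).1 = f x := by
  have e : ∀ n, {x // f x = n} ≃ {b : ℤ × α // b.1 = n} := fun n =>
    (Cardinal.eq.1 ((hf n).trans (mk_fiber_fst n).symm)).some
  exact ⟨Equiv.ofFiberEquiv (f := f) (g := Prod.fst) e, fun x => Equiv.ofFiberEquiv_map e x⟩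

/-- the shift attached to a coordinatisation of the basis -/
def shiftOf (c : α ≃ ℤ × α) : Equiv.Perm α :=
  c.trans ((Equiv.prodCongr (Equiv.addRight (1 : ℤ)) (Equiv.refl α)).trans c.symm)

theorem shiftOf_conj (c d : α ≃ ℤ × α) : IsConj (shiftOf c) (shiftOf d) := by
  rw [isConj_iff]
  refine ⟨c.trans d.symm, ?_⟩
  ext x
  simp [shiftOf, Equiv.Perm.mul_apply, Equiv.Perm.inv_def]

theorem shiftOf_inv_level (c : α ≃ ℤ × α) (x : α) :
    (c ((shiftOf c)⁻¹ x)).1 = (c x).1 - 1 := by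
  simp [shiftOf, Equiv.Perm.inv_def, sub_eq_add_neg]

theorem conj_of_levels (p q : α → ℤ) (c : α ≃ ℤ × α) (hc : ∀ x, (c x).1 = q x)
    (r : Equiv.Perm α) (hr : ∀ x, q (r x) = p x) (hr0 : ∀ x, p x ≤ 0 → r x = x)
    (hpq : ∀ x, q x ≤ 0 ↔ p x ≤ 0)
    (τ : MulAut (FreeGroup α)) (hτ0 : ∀ x, p x ≤ 0 → τ (FreeGroup.of x) = FreeGroup.of x)
    (hτ : ∀ x, τ⁻¹ (FreeGroup.of x) ∈ Sp {y | q y ≤ p x}) :
    IsConj (PA (shiftOf c)) (τ * PA (shiftOf c * r)) := by
  have hlow : ∀ x, q ((shiftOf c)⁻¹ x) = q x - 1 := fun x => by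
    rw [← hc, ← hc, shiftOf_inv_level]
  have hrinv : ∀ x, p (r⁻¹ x) = q x := fun x => by
    rw [← hr]; simp
  have hτ0' : ∀ x, q x ≤ 0 → τ⁻¹ (FreeGroup.of x) = FreeGroup.of x := fun x hx => by
    rw [MulAut.inv_apply, MulEquiv.symm_apply_eq, hτ0 x ((hpq x).1 hx)]
  refine wave _ _ (Sp {x | q x ≤ 0} : Set (FreeGroup α)) ?_ ?_ ?_ ?_
  · refine map_Sp _ _ fun x hx => ?_
    rw [← map_inv, PA_of]
    refine of_mem_Sp ?_
    show q _ ≤ 0
    rw [hlow]
    have : q x ≤ 0 := hx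
    omega
  · refine eq_on_Sp _ _ fun x hx => ?_
    have hx : q x ≤ 0 := hx
    rw [mul_inv_rev, MulAut.mul_apply, hτ0' x hx, ← map_inv, ← map_inv, PA_of, PA_of,
      mul_inv_rev, Equiv.Perm.mul_apply]
    congr 1
    rw [Equiv.Perm.inv_eq_iff_eq, hr0]
    rw [← hpq, hlow]
    omega
  · intro w
    obtain ⟨n, hn⟩ := exists_level q w
    refine ⟨n, ?_⟩
    have := descend (PA (shiftOf c))⁻¹ (fun n : ℕ => (Sp {x | q x ≤ n} : Set (FreeGroup α)))
      (fun m => map_Sp _ _ fun x hx => ?_) n w hn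
    · simpa using this
    · rw [← map_inv, PA_of]
      refine of_mem_Sp ?_
      show q _ ≤ _
      rw [hlow]
      have : q x ≤ ((m + 1 : ℕ) : ℤ) := hx
      omega
  · intro w
    obtain ⟨n, hn⟩ := exists_level p w
    refine ⟨n, ?_⟩
    have := descend (τ * PA (shiftOf c * r))⁻¹
      (fun n : ℕ => (Sp {x | p x ≤ n} : Set (FreeGroup α)))
      (fun m => map_Sp _ _ fun x hx => ?_) n w hn
    · have e : {x | q x ≤ 0} = {x | p x ≤ ((0 : ℕ) : ℤ)} := by
        ext x; simpa using hpq x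
      rw [e]; exact this
    · rw [mul_inv_rev, MulAut.mul_apply]
      refine map_Sp _ _ (fun y hy => ?_) _ (hτ x)
      rw [← map_inv, PA_of]
      refine of_mem_Sp ?_
      show p _ ≤ _
      rw [mul_inv_rev, Equiv.Perm.mul_apply, hrinv, hlow]
      have h1 : p x ≤ ((m + 1 : ℕ) : ℤ) := hx
      have h2 : q y ≤ p x := hy
      omega

theorem exists_relevel (p q : α → ℤ) (hp : ∀ n, #{x // p x = n} = #α)
    (hq : ∀ n, #{x // q x = n} = #α) (h : ∀ x n, n ≤ 0 → (p x = n ↔ q x = n)) :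
    ∃ r : Equiv.Perm α, (∀ x, q (r x) = p x) ∧ ∀ x, p x ≤ 0 → r x = x := by
  have e : ∀ n, ∃ e : {x // p x = n} ≃ {x // q x = n}, n ≤ 0 → ∀ x, (e x).1 = x.1 := by
    intro n
    by_cases hn : n ≤ 0
    · exact ⟨Equiv.subtypeEquivRight fun x => h x n hn, fun _ _ => rfl⟩
    · exact ⟨(Cardinal.eq.1 ((hp n).trans (hq n).symm)).some, fun h' => absurd h' hn⟩
  choose e he using e
  refine ⟨Equiv.ofFiberEquiv (f := p) (g := q) e, fun x => Equiv.ofFiberEquiv_map e x,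
    fun x hx => ?_⟩
  exact he (p x) hx ⟨x, rfl⟩

/-- An automorphism fixing a full-size part of the basis lies in the normal closure of
the shift. -/
theorem fixLarge_mem [Infinite α] (c₀ : α ≃ ℤ × α) (τ : MulAut (FreeGroup α)) (Y : Set α)
    (hY : #Y = #α) (hτ : ∀ y ∈ Y, τ (FreeGroup.of y) = FreeGroup.of y) :
    τ ∈ Subgroup.normalClosure ({PA (shiftOf c₀)} : Set (MulAut (FreeGroup α))) := by
  classical
  obtain ⟨e⟩ : Nonempty (Y ≃ ℤ × α) := Cardinal.eq.1 (hY.trans mk_int_prod.symm)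
  let q : α → ℤ := fun x => if h : x ∈ Y then (e ⟨x, h⟩).1 else 1
  have hl : ∀ x, ∃ n : ℕ, τ⁻¹ (FreeGroup.of x) ∈ Sp {y | q y ≤ n} := fun x => exists_level q _
  choose l hl using hl
  let p : α → ℤ := fun x => if h : x ∈ Y then (e ⟨x, h⟩).1 else (l x + 1 : ℕ)
  have hfib : ∀ f : α → ℤ, (∀ x (h : x ∈ Y), f x = (e ⟨x, h⟩).1) →
      ∀ n, #{x // f x = n} = #α := by
    intro f hf n
    refine le_antisymm (Cardinal.mk_subtype_le _) ?_
    refine Cardinal.mk_le_of_injective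
      (f := fun a => ⟨(e.symm (n, a)).1, by rw [hf _ (e.symm (n, a)).2]; simp⟩) ?_
    intro a b hab
    have h1 : (e.symm (n, a)).1 = (e.symm (n, b)).1 := by
      simpa only [Subtype.mk.injEq] using hab
    have h2 := e.symm.injective (Subtype.ext h1)
    exact (Prod.ext_iff.1 h2).2
  have hp := hfib p (fun x h => by simp [p, h])
  have hq := hfib q (fun x h => by simp [q, h])
  obtain ⟨c, hc⟩ := exists_equiv_level q hq
  obtain ⟨r, hr, hr0⟩ := exists_relevel p q hp hq (fun x n hn => by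
    by_cases h : x ∈ Y
    · simp [p, q, h]
    · simp only [p, q, h, dite_false]
      omega)
  have hpq : ∀ x, q x ≤ 0 ↔ p x ≤ 0 := fun x => by
    by_cases h : x ∈ Y
    · simp [p, q, h]
    · simp only [p, q, h, dite_false]
      omega
  have hpY : ∀ x, p x ≤ 0 → x ∈ Y := fun x hx => by
    by_contra h
    simp only [p, h, dite_false] at hx
    omega
  have c1 := conj_of_levels p q c hc r hr hr0 hpq τ (fun x hx => hτ x (hpY x hx)) (fun x => by
    by_cases h : x ∈ Y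
    · have : τ⁻¹ (FreeGroup.of x) = FreeGroup.of x := by
        rw [MulAut.inv_apply, MulEquiv.symm_apply_eq, hτ x h]
      rw [this]
      refine of_mem_Sp ?_
      show q x ≤ p x
      simp [p, q, h]
    · refine Sp_mono (fun y hy => ?_) (hl x)
      have hy : q y ≤ l x := hy
      show q y ≤ p x
      simp only [p, h, dite_false]
      omega)
  have c2 := conj_of_levels p q c hc r hr hr0 hpq 1 (fun x hx => rfl) (fun x => by
    refine of_mem_Sp ?_
    show q x ≤ p x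
    by_cases h : x ∈ Y
    · simp [p, q, h]
    · simp only [p, q, h, dite_false]
      omega)
  have c0 : IsConj (PA (shiftOf c₀)) (PA (shiftOf c)) := PA.map_isConj (shiftOf_conj c₀ c)
  have mem : ∀ g, IsConj (PA (shiftOf c₀)) g →
      g ∈ Subgroup.normalClosure ({PA (shiftOf c₀)} : Set (MulAut (FreeGroup α))) := by
    intro g hg
    exact Subgroup.conjugatesOfSet_subset_normalClosure
      (Group.mem_conjugatesOfSet_iff.2 ⟨_, rfl, hg⟩)
  have m1 := mem _ (c0.trans c1)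
  have m2 := mem _ (c0.trans c2)
  have := Subgroup.mul_mem _ m1 (Subgroup.inv_mem _ m2)
  rwa [one_mul, mul_inv_cancel_right] at this

end Pool.Agent.P.MP_8e22c2_al
end

-- part Pool.Agent.P.MP_8e22c2_al.Factor
section

set_option autoImplicit false

namespace Pool.Agent.P.MP_8e22c2_al

open Filter Cardinal

variable {α : Type}

open Classical in
/-- transport an endomorphism along an injection of the basis, identity elsewhere -/
noncomputable def ext (j : α ↪ α) (ψ : FreeGroup α →* FreeGroup α) :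
    FreeGroup α →* FreeGroup α :=
  FreeGroup.lift fun x =>
    if h : ∃ y, j y = x then FreeGroup.map j (ψ (FreeGroup.of h.choose)) else FreeGroup.of x

theorem ext_of_not (j : α ↪ α) (ψ : FreeGroup α →* FreeGroup α) (x : α) (h : ¬ ∃ y, j y = x) :
    ext j ψ (FreeGroup.of x) = FreeGroup.of x := by
  rw [ext, FreeGroup.lift_apply_of, dif_neg h]

theorem ext_map (j : α ↪ α) (ψ : FreeGroup α →* FreeGroup α) (w : FreeGroup α) :
    ext j ψ (FreeGroup.map j w) = FreeGroup.map j (ψ w) := by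
  have : (ext j ψ).comp (FreeGroup.map j) = (FreeGroup.map j).comp ψ := by
    refine FreeGroup.ext_hom _ _ fun x => ?_
    have h : ∃ y, j y = j x := ⟨x, rfl⟩
    simp only [MonoidHom.comp_apply, FreeGroup.map.of]
    rw [ext, FreeGroup.lift_apply_of, dif_pos h, j.injective h.choose_spec]
  exact DFunLike.congr_fun this w

theorem ext_ext (j : α ↪ α) (ψ χ : FreeGroup α →* FreeGroup α) (h : ∀ w, ψ (χ w) = w)
    (w : FreeGroup α) : ext j ψ (ext j χ w) = w := by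
  have : (ext j ψ).comp (ext j χ) = MonoidHom.id _ := by
    refine FreeGroup.ext_hom _ _ fun x => ?_
    simp only [MonoidHom.comp_apply, MonoidHom.id_apply]
    by_cases hx : ∃ y, j y = x
    · obtain ⟨y, rfl⟩ := hx
      rw [← FreeGroup.map.of, ext_map, ext_map, h]
    · rw [ext_of_not _ _ _ hx, ext_of_not _ _ _ hx]
  exact DFunLike.congr_fun this w

theorem exists_ext (j : α ↪ α) (φ : MulAut (FreeGroup α)) :
    ∃ β : MulAut (FreeGroup α), (∀ w, β (FreeGroup.map j w) = FreeGroup.map j (φ w)) ∧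
      ∀ x, (¬ ∃ y, j y = x) → β (FreeGroup.of x) = FreeGroup.of x := by
  refine ⟨⟨⟨ext j φ.toMonoidHom, ext j φ.symm.toMonoidHom, ?_, ?_⟩, ?_⟩, ?_, ?_⟩
  · exact ext_ext j _ _ (by simp)
  · exact ext_ext j _ _ (by simp)
  · exact map_mul _
  · exact ext_map j _
  · exact ext_of_not j _

theorem exists_emb [Infinite α] (A : Set α) (hA : #(Aᶜ : Set α) = #α) :
    ∃ (j : α ↪ α) (Z : Set α), Z ⊆ Aᶜ ∧ #Z = #α ∧ (∀ x ∈ A, j x = x) ∧
      ∀ x ∈ Z, ¬ ∃ y, j y = x := by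
  classical
  have h1 : #((Aᶜ : Set α) ⊕ (Aᶜ : Set α)) = #(Aᶜ : Set α) := by
    rw [Cardinal.mk_sum, Cardinal.lift_id, hA]
    exact Cardinal.add_eq_self (Cardinal.aleph0_le_mk α)
  obtain ⟨e⟩ := Cardinal.eq.1 h1
  refine ⟨⟨fun x => if h : x ∈ A then x else (e (Sum.inl ⟨x, h⟩)).1, ?_⟩,
    Set.range fun y => (e (Sum.inr y)).1, ?_, ?_, ?_, ?_⟩
  · intro x y hxy
    by_cases hx : x ∈ A <;> by_cases hy : y ∈ A <;> simp only [hx, hy, dite_true, dite_false] at hxy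
    · exact hxy
    · exact absurd (hxy ▸ hx) (e (Sum.inl ⟨y, hy⟩)).2
    · exact absurd (hxy ▸ hy) (e (Sum.inl ⟨x, hx⟩)).2
    · have := e.injective (Subtype.ext hxy)
      simpa using this
  · rintro _ ⟨y, rfl⟩
    exact (e (Sum.inr y)).2
  · rw [Cardinal.mk_range_eq, hA]
    intro a b hab
    have := e.injective (Subtype.ext hab)
    simpa using this
  · intro x hx
    exact dif_pos hx
  · rintro _ ⟨y, rfl⟩ ⟨x, hx⟩
    replace hx : (if h : x ∈ A then x else (e (Sum.inl ⟨x, h⟩)).1) = (e (Sum.inr y)).1 := hx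
    by_cases h : x ∈ A
    · rw [dif_pos h] at hx
      exact (e (Sum.inr y)).2 (hx ▸ h)
    · rw [dif_neg h] at hx
      have := e.injective (Subtype.ext hx)
      simp at this

/-- relabelling trick -/
theorem relabel [Infinite α] (φ : MulAut (FreeGroup α)) (A : Set α) (hA : #(Aᶜ : Set α) = #α) :
    ∃ (β : MulAut (FreeGroup α)) (Z : Set α), Z ⊆ Aᶜ ∧ #Z = #α ∧
      (∀ x ∈ Z, β (FreeGroup.of x) = FreeGroup.of x) ∧
      ∀ x ∈ A, φ (FreeGroup.of x) ∈ Sp A → β (FreeGroup.of x) = φ (FreeGroup.of x) := by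
  obtain ⟨j, Z, hZ, hZc, hj, hjZ⟩ := exists_emb A hA
  obtain ⟨β, hβ, hβ'⟩ := exists_ext j φ
  refine ⟨β, Z, hZ, hZc, fun x hx => hβ' x (hjZ x hx), fun x hx hφ => ?_⟩
  have h1 : ∀ w ∈ Sp A, FreeGroup.map j w = MonoidHom.id _ w :=
    eq_on_Sp _ _ fun y hy => by simp [hj y hy]
  have h2 := hβ (FreeGroup.of x)
  rw [h1 _ hφ, h1 _ (of_mem_Sp hx)] at h2
  exact h2

theorem exists_large_small [Uncountable α] (f : α → Set α) (hf : ∀ x, (f x).Finite) :
    ∃ Y A : Set α, #Y = #α ∧ #(Aᶜ : Set α) = #α ∧ ∀ y ∈ Y, f y ⊆ A := by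
  have hprod : #α = #(α × α) := by simp
  obtain ⟨e⟩ := Cardinal.eq.1 hprod
  let Y : α → Set α := fun ξ => {x | f x ⊆ {z | (e z).1 ≠ ξ}}
  have hA : ∀ ξ, #(({z | (e z).1 ≠ ξ} : Set α)ᶜ : Set α) = #α := by
    intro ξ
    rw [← mk_fiber_fst (γ := α) ξ]
    refine Cardinal.mk_congr (e.subtypeEquiv fun a => ?_)
    simp
  suffices h : ∃ ξ, #(Y ξ) = #α by
    obtain ⟨ξ, hξ⟩ := h
    exact ⟨Y ξ, _, hξ, hA ξ, fun y hy => hy⟩
  by_contra hcon
  push Not at hcon
  have hlt : ∀ ξ, #(Y ξ) < #α := fun ξ => lt_of_le_of_ne (Cardinal.mk_set_le _) (hcon ξ)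
  have hdown : ∃ ξ₀, {ξ | #(Y ξ) ≤ #(Y ξ₀)}.Infinite := by
    by_contra hfin
    push Not at hfin
    let u : ℕ ↪ α := Infinite.natEmbedding α
    have hc : (⋃ i, {ξ | #(Y ξ) ≤ #(Y (u i))}).Countable :=
      Set.countable_iUnion fun i => (hfin _).countable
    obtain ⟨ξ, hξ⟩ : ∃ ξ, ξ ∉ ⋃ i, {ξ | #(Y ξ) ≤ #(Y (u i))} := by
      by_contra h
      push Not at h
      exact Set.not_countable_univ (hc.mono fun x _ => h x)
    simp only [Set.mem_iUnion, not_exists] at hξ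
    refine (Set.infinite_range_of_injective u.injective) ((hfin ξ).subset ?_)
    rintro _ ⟨i, rfl⟩
    exact le_of_lt (not_le.1 (show ¬ (#(Y ξ) ≤ #(Y (u i))) from hξ i))
  obtain ⟨ξ₀, hξ₀⟩ := hdown
  let u := hξ₀.natEmbedding
  have hcov : (Set.univ : Set α) = ⋃ i, Y (u i).1 := by
    refine (Set.eq_univ_of_forall fun x => ?_).symm
    by_contra h
    simp only [Set.mem_iUnion, not_exists] at h
    have hinj : Function.Injective fun i => (u i).1 :=
      Subtype.val_injective.comp u.injective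
    refine (Set.infinite_range_of_injective hinj) (((hf x).image fun z => (e z).1).subset ?_)
    rintro _ ⟨i, rfl⟩
    have := h i
    simp only [Y, Set.mem_ofPred_eq, Set.not_subset, not_not] at this
    obtain ⟨z, hz, hz'⟩ := this
    exact ⟨z, hz, hz'⟩
  have h1 : #α ≤ ℵ₀ * #(Y ξ₀) := by
    rw [← Cardinal.mk_univ, hcov]
    refine (Cardinal.mk_iUnion_le _).trans ?_
    rw [Cardinal.mk_nat]
    gcongr
    exact ciSup_le' fun i => (u i).2
  have h2 : ℵ₀ * #(Y ξ₀) < #α :=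
    Cardinal.mul_lt_of_lt (Cardinal.aleph0_le_mk α) Cardinal.aleph0_lt_mk (hlt ξ₀)
  exact absurd h1 (not_le.2 h2)

/-- The factorisation property. -/
def Fac (φ : MulAut (FreeGroup α)) : Prop :=
  ∃ (β : MulAut (FreeGroup α)) (Z Y : Set α), #Z = #α ∧ #Y = #α ∧
    (∀ x ∈ Z, β (FreeGroup.of x) = FreeGroup.of x) ∧
    ∀ x ∈ Y, β (FreeGroup.of x) = φ (FreeGroup.of x)

theorem fac_uncountable [Uncountable α] (φ : MulAut (FreeGroup α)) : Fac φ := by
  choose s hs hs' using fun x => exists_support (φ (FreeGroup.of x))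
  obtain ⟨Y, A, hY, hA, h⟩ := exists_large_small (fun x => insert x (s x))
    (fun x => (hs x).insert x)
  obtain ⟨β, Z, -, hZ, h1, h2⟩ := relabel φ A hA
  exact ⟨β, Z, Y, hZ, hY, h1, fun x hx => h2 x (h x hx (Set.mem_insert _ _))
    (Sp_mono ((Set.subset_insert _ _).trans (h x hx)) (hs' x))⟩

theorem new_fixed [Infinite α] (β : MulAut (FreeGroup α)) (D : Set α) (hD : D.Finite) :
    ∃ (β' : MulAut (FreeGroup α)) (y : α), y ∉ D ∧ β' (FreeGroup.of y) = FreeGroup.of y ∧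
      ∀ x ∈ D, β' (FreeGroup.of x) = β (FreeGroup.of x) := by
  choose s hs hs' using fun x => exists_support (β (FreeGroup.of x))
  have hfin : (D ∪ ⋃ x ∈ D, s x).Finite := hD.union (hD.biUnion fun x _ => hs x)
  obtain ⟨β', Z, hZ, hZc, h1, h2⟩ := relabel β (D ∪ ⋃ x ∈ D, s x)
    (Cardinal.mk_compl_of_infinite _
      (hfin.lt_aleph0.trans_le (Cardinal.aleph0_le_mk α)))
  obtain ⟨y, hy⟩ : Z.Nonempty := by
    rw [← Set.nonempty_coe_sort, ← Cardinal.mk_ne_zero_iff, hZc]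
    exact Cardinal.mk_ne_zero α
  refine ⟨β', y, fun h => hZ hy (Or.inl h), h1 y hy, fun x hx => h2 x (Or.inl hx) ?_⟩
  exact Sp_mono (fun z hz => Or.inr (Set.mem_biUnion hx hz)) (hs' x)

theorem step [Infinite α] (φ β : MulAut (FreeGroup α)) (D : Set α) (hD : D.Finite) (a : α) :
    ∃ (β' : MulAut (FreeGroup α)) (D' : Set α), D'.Finite ∧ D ⊆ D' ∧
      (∀ x ∈ D, β' (FreeGroup.of x) = β (FreeGroup.of x)) ∧ a ∈ D' ∧
      β'⁻¹ (FreeGroup.of a) ∈ Sp D' ∧
      (∃ y ∈ D', y ∉ D ∧ β' (FreeGroup.of y) = FreeGroup.of y) ∧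
      (∃ y ∈ D', y ∉ D ∧ β' (FreeGroup.of y) = φ (FreeGroup.of y)) := by
  obtain ⟨β₁, y₁, hy₁, h1, h1'⟩ := new_fixed β D hD
  obtain ⟨β₂, y₂, hy₂, h2, h2'⟩ := new_fixed (φ⁻¹ * β₁) (insert y₁ D) (hD.insert _)
  obtain ⟨s, hs, hs'⟩ := exists_support ((φ * β₂)⁻¹ (FreeGroup.of a))
  have h3 : ∀ x ∈ insert y₁ D, (φ * β₂) (FreeGroup.of x) = β₁ (FreeGroup.of x) := by
    intro x hx
    rw [MulAut.mul_apply, h2' x hx]
    simp
  refine ⟨φ * β₂, insert a (insert y₂ (insert y₁ D)) ∪ s,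
    (((hD.insert _).insert _).insert _).union hs, ?_, ?_, ?_, ?_, ⟨y₁, ?_, hy₁, ?_⟩,
    ⟨y₂, ?_, ?_, ?_⟩⟩
  · intro x hx
    simp [hx]
  · intro x hx
    rw [h3 x (Set.mem_insert_of_mem _ hx), h1' x hx]
  · simp
  · exact Sp_mono Set.subset_union_right hs'
  · simp
  · rw [h3 _ (Set.mem_insert _ _), h1]
  · simp
  · exact fun h => hy₂ (Set.mem_insert_of_mem _ h)
  · rw [MulAut.mul_apply, h2]

theorem fac_countable [Infinite α] [Countable α] (φ : MulAut (FreeGroup α)) : Fac φ := by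
  obtain ⟨a, ha⟩ := exists_surjective_nat α
  choose B E hE using step φ
  let st : ℕ → MulAut (FreeGroup α) × {D : Set α // D.Finite} := fun n =>
    Nat.rec (1, ⟨∅, Set.finite_empty⟩)
      (fun n p => (B p.1 p.2.1 p.2.2 (a n), ⟨E p.1 p.2.1 p.2.2 (a n), (hE _ _ _ _).1⟩)) n
  let β : ℕ → MulAut (FreeGroup α) := fun n => (st n).1
  let D : ℕ → Set α := fun n => (st n).2.1
  have hD : ∀ n, (D n).Finite := fun n => (st n).2.2
  have H : ∀ n, D n ⊆ D (n + 1) ∧
      (∀ x ∈ D n, β (n + 1) (FreeGroup.of x) = β n (FreeGroup.of x)) ∧ a n ∈ D (n + 1) ∧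
      (β (n + 1))⁻¹ (FreeGroup.of (a n)) ∈ Sp (D (n + 1)) ∧
      (∃ y ∈ D (n + 1), y ∉ D n ∧ β (n + 1) (FreeGroup.of y) = FreeGroup.of y) ∧
      (∃ y ∈ D (n + 1), y ∉ D n ∧ β (n + 1) (FreeGroup.of y) = φ (FreeGroup.of y)) :=
    fun n => (hE (β n) (D n) (hD n) (a n)).2
  clear_value β D
  clear st hE
  have mono : Monotone D := monotone_nat_of_le_succ fun n => (H n).1
  have stab : ∀ n m, n ≤ m → ∀ w ∈ Sp (D n), β m w = β n w := by
    intro n m hnm
    refine eq_on_Sp _ _ fun x hx => ?_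
    induction m, hnm using Nat.le_induction with
    | base => rfl
    | succ m hm ih => rw [(H m).2.1 x (mono hm hx), ih]
  have lim : ∀ u : ℕ → MulAut (FreeGroup α),
      (∀ x, ∃ v, ∀ᶠ n in atTop, u n (FreeGroup.of x) = v) →
      ∀ w, ∃ v, ∀ᶠ n in atTop, u n w = v := by
    intro u hu w
    induction w using FreeGroup.induction_on with
    | C1 => exact ⟨1, Eventually.of_forall fun n => map_one _⟩
    | of x => exact hu x
    | inv_of x h =>
      obtain ⟨v, hv⟩ := h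
      exact ⟨v⁻¹, hv.mono fun n hn => by rw [map_inv, hn]⟩
    | mul x y hx hy =>
      obtain ⟨v, hv⟩ := hx
      obtain ⟨v', hv'⟩ := hy
      exact ⟨v * v', (hv.and hv').mono fun n hn => by rw [map_mul, hn.1, hn.2]⟩
  obtain ⟨b, hb⟩ := exists_limit β
    (lim β fun x => by
      obtain ⟨n, rfl⟩ := ha x
      exact ⟨_, eventually_atTop.2 ⟨n + 1, fun m hm =>
        stab (n + 1) m hm _ (of_mem_Sp (H n).2.2.1)⟩⟩)
    (lim (fun n => (β n)⁻¹) fun x => by
      obtain ⟨n, rfl⟩ := ha x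
      refine ⟨(β (n + 1))⁻¹ (FreeGroup.of (a n)), eventually_atTop.2 ⟨n + 1, fun m hm => ?_⟩⟩
      rw [MulAut.inv_apply, MulEquiv.symm_apply_eq, stab (n + 1) m hm _ (H n).2.2.2.1]
      simp)
  have hbD : ∀ n, ∀ x ∈ D n, b (FreeGroup.of x) = β n (FreeGroup.of x) := by
    intro n x hx
    obtain ⟨m, hm1, hm2⟩ := ((hb (FreeGroup.of x)).and (eventually_ge_atTop n)).exists
    rw [← hm1, stab n m hm2 _ (of_mem_Sp hx)]
  have big : ∀ P : α → Prop, (∀ n, ∃ y, y ∉ D n ∧ P y) → #{y | P y} = #α := by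
    intro P hP
    have hinf : {y | P y}.Infinite := by
      intro hfin
      have : ∃ n, {y | P y} ⊆ D n := by
        have h1 : ∀ y ∈ {y | P y}, ∀ᶠ n in atTop, y ∈ D n := by
          intro y _
          obtain ⟨k, rfl⟩ := ha y
          exact eventually_atTop.2 ⟨k + 1, fun m hm => mono hm (H k).2.2.1⟩
        exact ((eventually_all_finite hfin).2 h1).exists
      obtain ⟨n, hn⟩ := this
      obtain ⟨y, hy, hy'⟩ := hP n
      exact hy (hn hy')
    have := hinf.to_subtype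
    rw [Cardinal.mk_eq_aleph0, Cardinal.mk_eq_aleph0]
  refine ⟨b, {y | b (FreeGroup.of y) = FreeGroup.of y},
    {y | b (FreeGroup.of y) = φ (FreeGroup.of y)}, big _ fun n => ?_, big _ fun n => ?_,
    fun x hx => hx, fun x hx => hx⟩
  · obtain ⟨y, hy, hy', hy''⟩ := (H n).2.2.2.2.1
    exact ⟨y, hy', by rw [hbD _ y hy, hy'']⟩
  · obtain ⟨y, hy, hy', hy''⟩ := (H n).2.2.2.2.2
    exact ⟨y, hy', by rw [hbD _ y hy, hy'']⟩

theorem main (α : Type) [Infinite α] :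
    ∃ φ : MulAut (FreeGroup α),
      Subgroup.normalClosure ({φ} : Set (MulAut (FreeGroup α))) = ⊤ := by
  obtain ⟨c₀⟩ : Nonempty (α ≃ ℤ × α) := Cardinal.eq.1 mk_int_prod.symm
  refine ⟨PA (shiftOf c₀), eq_top_iff.2 fun φ _ => ?_⟩
  have hf : Fac φ := by
    by_cases h : Countable α
    · exact fac_countable φ
    · have : Uncountable α := ⟨h⟩
      exact fac_uncountable φ
  obtain ⟨β, Z, Y, hZ, hY, h1, h2⟩ := hf
  have m1 := fixLarge_mem c₀ β Z hZ h1
  have m2 := fixLarge_mem c₀ (β⁻¹ * φ) Y hY (fun y hy => by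
    rw [MulAut.mul_apply, ← h2 y hy]; simp)
  have := Subgroup.mul_mem _ m1 m2
  rwa [mul_inv_cancel_left] at this

end Pool.Agent.P.MP_8e22c2_al
end
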